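import Pool.Agent.MP_a93f81_an.RateMain

/-!
Sharp rate, uniform in the datum, for the integrals over intervals in the nonlocal-to-local limit.
-/

set_option autoImplicit false

open MeasureTheory

namespace Pool.Agent.Results.MP_a93f81_an.SharpRate

/-- Weak solutions with values in the unit interval of the nonlocal problem with datum `ub`. -/
def IsNonlocal (ε : ℝ) (ub : ℝ → ℝ) (u : ℝ → ℝ → ℝ) : Prop :=
  Measurable (Function.uncurry u) ∧ (∀ t x, 0 ≤ u t x ∧ u t x ≤ 1) ∧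
    ∀ φ : ℝ → ℝ → ℝ, ContDiff ℝ (⊤ : ℕ∞) (Function.uncurry φ) →
      HasCompactSupport (Function.uncurry φ) →
      (∫ t in Set.Ioi (0 : ℝ), ∫ x : ℝ,
        (u t x * deriv (fun s => φ s x) t
          + u t x * (1 - (1 / ε) * ∫ y in x..(x + ε), u t y) * deriv (fun y => φ t y) x))
        + (∫ x : ℝ, ub x * φ 0 x) = 0

/-- Kruzhkov entropy solutions with values in the unit interval of the local problem with
datum `ub`. -/
def IsEntropy (ub : ℝ → ℝ) (w : ℝ → ℝ → ℝ) : Prop :=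
  Measurable (Function.uncurry w) ∧ (∀ t x, 0 ≤ w t x ∧ w t x ≤ 1) ∧
    ∀ k : ℝ, ∀ φ : ℝ → ℝ → ℝ, ContDiff ℝ (⊤ : ℕ∞) (Function.uncurry φ) →
      HasCompactSupport (Function.uncurry φ) → (∀ t x, 0 ≤ φ t x) →
      0 ≤ (∫ t in Set.Ioi (0 : ℝ), ∫ x : ℝ,
        (|w t x - k| * deriv (fun s => φ s x) t
          + Real.sign (w t x - k) * (w t x * (1 - w t x) - k * (1 - k))
            * deriv (fun y => φ t y) x))
        + (∫ x : ℝ, |ub x - k| * φ 0 x)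

/-- The datum equal to one left of `0`, zero on `[0, 3]`, linear on `[3, 5]`, one right of `5`. -/
noncomputable def datum (x : ℝ) : ℝ := if x < 0 then 1 else max 0 (min 1 ((x - 3) / 2))

open Pool.Agent.MP_a93f81_an in
theorem result :
    (∀ ub : ℝ → ℝ, Measurable ub → (∀ x, 0 ≤ ub x ∧ ub x ≤ 1) → ∀ ε : ℝ, 0 < ε →
      ∀ u w : ℝ → ℝ → ℝ, IsNonlocal ε ub u → IsEntropy ub w →
        ∀ᵐ t : ℝ, 0 < t → ∀ a b : ℝ,
          |∫ x in a..b, (u t x - w t x)| ≤ ε / 2 * (1 + Real.log (1 + t / ε))) ∧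
    (∀ κ : ℝ, 0 < κ → ∃ ε₀ : ℝ, 0 < ε₀ ∧ ∀ ε : ℝ, 0 < ε → ε < ε₀ →
      ∃ t₁ a b : ℝ, 1 / 2 ≤ t₁ ∧ t₁ + ε < 1 ∧ -1 < a ∧ a < b ∧ b < 5 ∧
        ∀ u w : ℝ → ℝ → ℝ, IsNonlocal ε datum u → IsEntropy datum w →
          ∀ᵐ t : ℝ, t₁ < t → t < t₁ + ε →
            (1 / 2 - κ) * ε * Real.log (1 / ε) ≤ ∫ x in a..b, (u t x - w t x)) := by
  have key : ∀ ub : ℝ → ℝ, Measurable ub → (∀ x, 0 ≤ ub x ∧ ub x ≤ 1) → ∀ ε : ℝ, 0 < ε →
      ∀ u w : ℝ → ℝ → ℝ, IsNonlocal ε ub u → IsEntropy ub w →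
      ∃ U M : Pl → ℝ, NL ε U ∧ Loc M ∧ U 0 = 0 ∧ M 0 = 0 ∧
        (∀ᵐ z, D ex U z = extd (Function.uncurry u) ub z) ∧
        (∀ᵐ z, D ex M z = extd (Function.uncurry w) ub z) ∧
        ∀ᵐ t : ℝ, 0 < t → ∀ a b : ℝ, ∫ x in a..b, (u t x - w t x)
          = (U (t, b) - M (t, b)) - (U (t, a) - M (t, a)) := by
    intro ub hub hub' ε hε u w hu hw
    obtain ⟨U, hU, hU0, hUx⟩ := exists_NL (u := Function.uncurry u) hub hub' hu.1
      (fun z => hu.2.1 z.1 z.2) hε (fun Φ h1 h2 => hu.2.2 (Function.curry Φ) h1 h2)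
    obtain ⟨M, hM, hM0, hMx⟩ := exists_Loc (w := Function.uncurry w) hub hub' hw.1
      (fun z => hw.2.1 z.1 z.2)
      (fun k Φ h1 h2 h3 => hw.2.2 k (Function.curry Φ) h1 h2 (fun t x => h3 (t, x)))
    exact ⟨U, M, hU, hM, hU0, hM0, hUx, hMx, int_sub_eq hU.toPot hM.toPot hu.1
      (fun z => hu.2.1 z.1 z.2) hw.1 (fun z => hw.2.1 z.1 z.2) hUx hMx⟩
  refine ⟨fun ub hub hub' ε hε u w hu hw => ?_, fun κ hκ => ?_⟩
  · obtain ⟨U, M, hU, hM, hU0, hM0, hUx, hMx, h⟩ := key ub hub hub' ε hε u w hu hw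
    filter_upwards [h] with t h1 ht a b
    rw [h1 ht]
    exact rate_pot hε hU hM (init_eq hU.toPot hM.toPot hU0 hM0 hUx hMx) ht a b
  · obtain ⟨ε0, h0, h⟩ := sharp_pot hκ
    refine ⟨ε0, h0, fun ε hε hε0 => ?_⟩
    obtain ⟨t1, a, b, c1, c2, c3, c4, c5, h⟩ := h ε hε hε0
    refine ⟨t1, a, b, c1, c2, c3, c4, c5, fun u w hu hw => ?_⟩
    obtain ⟨U, M, hU, hM, hU0, hM0, hUx, hMx, h'⟩ :=
      key exu exu_measurable exu_mem ε hε u w hu hw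
    filter_upwards [h'] with t h1 ht ht'
    rw [h1 (by linarith)]
    exact h U M hU hM (init_ex hU.toPot hU0 hUx) (init_ex hM.toPot hM0 hMx) t ht.le ht'.le

end Pool.Agent.Results.MP_a93f81_an.SharpRate
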